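import Pool.Agent.TH300.ZS.Tup

/-!
# The inequalities in units of the mean spacing, and Roth's theorem
-/

open Set MeasureTheory
open scoped BigOperators

namespace Pool.Agent.TH300.ZS

open Pool.Agent.W201

lemma PW_nonneg {m : ℕ} (S : Finset ℝ) (a : Fin m → ℝ) (w : ℝ) : 0 ≤ PW S a w :=
  Finset.sum_nonneg fun _ _ => Finset.sum_nonneg fun _ _ => Finset.sum_nonneg fun _ _ =>
    le_max_left _ _

/-- The inequality for the pairs, in mean spacings. -/
theorem pairs_fin {S : Finset ℝ} {A H r p ε κ σ : ℝ} (hσ : 0 < σ) (hH : 0 < H) (hr : 0 < r)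
    (hp : p ≤ 2) (hε : 0 < ε) (hκ0 : 0 ≤ κ) (hS : ∀ x ∈ S, A ≤ x ∧ x ≤ A + H)
    (hU : r * (p - ε / 3) * H ≤ (volume (UU (r * σ / 2) S)).toReal)
    (hκ : κ + r * σ / H ≤ ε / 3) {m : ℕ} (a : Fin m → ℝ) (ha : ∀ i, 0 ≤ a i ∧ a i ≤ κ * H)
    (n : ℕ) :
    (n * m * (p - ε) - (n + 1).choose 2 / r) * (H / σ) ≤ PW S a (r * σ) / (r * σ) := by
  have hw : 0 < r * σ := mul_pos hr hσ
  have h1 := pairs_ineq hS (by linarith) hw a ha (by positivity) n
  have e : A + H - A + κ * H + r * σ = H * (1 + (κ + r * σ / H)) := by field_simp; ring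
  rw [e] at h1
  apply arith (C := n) (mp := m) (ε₁ := ε / 3) (Nat.cast_nonneg _) (Nat.cast_nonneg _) hp hε rfl
    (by positivity) (by positivity) (div_nonneg (PW_nonneg _ _ _) hw.le)
  rw [le_div_iff₀ hw]
  refine le_trans ?_ h1
  have h2 : (n : ℝ) * (m * (r * (p - ε / 3) * H)) ≤
      (n : ℝ) * (m * (volume (UU (r * σ / 2) S)).toReal) :=
    mul_le_mul_of_nonneg_left (mul_le_mul_of_nonneg_left hU (Nat.cast_nonneg _)) (Nat.cast_nonneg _)
  have h3 : ((n + 1).choose 2 : ℝ) * (H * (1 + (κ + r * σ / H))) ≤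
      ((n + 1).choose 2 : ℝ) * (H * (1 + ε / 3)) :=
    mul_le_mul_of_nonneg_left (mul_le_mul_of_nonneg_left (by linarith) hH.le) (Nat.cast_nonneg _)
  have e2 : ((n : ℝ) * m * (p - ε / 3) - (n + 1).choose 2 / r * (1 + ε / 3)) * (H / σ) * (r * σ) =
      (n : ℝ) * (m * (r * (p - ε / 3) * H)) - ((n + 1).choose 2 : ℝ) * (H * (1 + ε / 3)) := by
    field_simp
  rw [e2]
  linarith

/-- The inequality for the families, in mean spacings. -/
theorem tup_fin {S : Finset ℝ} {A H r p ε κ σ : ℝ} (hσ : 0 < σ) (hH : 0 < H) (hr : 0 < r)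
    (hp : p ≤ 2) (hε : 0 < ε) (hκ0 : 0 ≤ κ) (hS : ∀ x ∈ S, A ≤ x ∧ x ≤ A + H)
    (hU : r * (p - ε / 3) * H ≤ (volume (UU (r * σ / 2) S)).toReal)
    (hκ : κ + r * σ / H ≤ ε / 3) {m : ℕ} (a : Fin m → ℝ) (ha : ∀ i, 0 ≤ a i ∧ a i ≤ κ * H)
    (k n : ℕ) :
    (n.choose k * m * (p - ε) - k * (n + 1).choose (k + 1) / r) * (H / σ) ≤
      ∑ I ∈ Finset.powersetCard (k + 1) (Finset.univ : Finset (Fin m)),
        (tup S a I (r * σ) : ℝ) := by
  have hw : 0 < r * σ := mul_pos hr hσ
  have h1 := tup_ineq hS (by linarith) hw a ha (by positivity) k n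
  have e : A + H - A + κ * H + r * σ = H * (1 + (κ + r * σ / H)) := by field_simp; ring
  rw [e] at h1
  apply arith (C := n.choose k) (mp := m) (ε₁ := ε / 3) (Nat.cast_nonneg _) (Nat.cast_nonneg _)
    hp hε rfl (by positivity) (by positivity) (Finset.sum_nonneg fun _ _ => Nat.cast_nonneg _)
  refine le_of_mul_le_mul_left ?_ hw
  refine le_trans ?_ h1
  have h2 : (n.choose k : ℝ) * (m * (r * (p - ε / 3) * H)) ≤
      (n.choose k : ℝ) * (m * (volume (UU (r * σ / 2) S)).toReal) :=
    mul_le_mul_of_nonneg_left (mul_le_mul_of_nonneg_left hU (Nat.cast_nonneg _)) (Nat.cast_nonneg _)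
  have h3 : (k : ℝ) * ((n + 1).choose (k + 1) : ℝ) * (H * (1 + (κ + r * σ / H))) ≤
      (k : ℝ) * ((n + 1).choose (k + 1) : ℝ) * (H * (1 + ε / 3)) :=
    mul_le_mul_of_nonneg_left (mul_le_mul_of_nonneg_left (by linarith) hH.le) (by positivity)
  have e2 : r * σ * (((n.choose k : ℝ) * m * (p - ε / 3) -
      k * (n + 1).choose (k + 1) / r * (1 + ε / 3)) * (H / σ)) =
      (n.choose k : ℝ) * (m * (r * (p - ε / 3) * H)) -
        (k : ℝ) * ((n + 1).choose (k + 1) : ℝ) * (H * (1 + ε / 3)) := by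
    field_simp
  rw [e2]
  linarith

/-- three translates in arithmetic progression, by Roth's theorem -/
theorem roth_vol {U : Set ℝ} (hU : MeasurableSet U) {A B δ s D : ℝ} (hUs : U ⊆ Ioo A B)
    (hAB : A < B) (hδ : 0 < δ) {m : ℕ} (hm0 : 1 ≤ m) (hm : cornersTheoremBound (δ / 3) ≤ m)
    (hs : 0 ≤ s) (hD : m * s ≤ D) (hUv : 2 * δ * (B - A + D) ≤ (volume U).toReal) :
    ∃ d : ℕ, 1 ≤ d ∧ d < m ∧ δ * (B - A + D) / m ^ 2 ≤
      (volume {t : ℝ | t ∈ U ∧ t - d * s ∈ U ∧ t - 2 * d * s ∈ U}).toReal := by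
  classical
  by_contra hcon
  push Not at hcon
  have hm1 : (1 : ℝ) ≤ m := by exact_mod_cast hm0
  have hD0 : 0 ≤ D := le_trans (by positivity) hD
  set L : ℝ := B - A + D with hL
  have hL0 : 0 < L := by rw [hL]; linarith
  set E : ℕ → Set ℝ := fun d => {t : ℝ | t ∈ U ∧ t - d * s ∈ U ∧ t - 2 * d * s ∈ U} with hE
  have hEm : ∀ d, MeasurableSet (E d) := by
    intro d
    exact hU.inter ((hU.preimage (measurable_id.sub_const _)).inter
      (hU.preimage (measurable_id.sub_const _)))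
  set J : Set ℝ := Ioo A (B + D) with hJ
  have hJf : volume J ≠ ⊤ := by rw [hJ, Real.volume_Ioo]; exact ENNReal.ofReal_ne_top
  have hJv : (volume J).toReal = L := by
    rw [hJ, Real.volume_Ioo, ENNReal.toReal_ofReal (by linarith)]
    rw [hL]; ring
  have htrJ : ∀ i ∈ Finset.range m, tr U (i * s) ⊆ J := by
    intro i hi t ht
    have h1 := hUs ht
    have h2 : (i : ℝ) ≤ m := by exact_mod_cast (Finset.mem_range.mp hi).le
    have h3 : (i : ℝ) * s ≤ m * s := mul_le_mul_of_nonneg_right h2 hs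
    have h4 : 0 ≤ (i : ℝ) * s := by positivity
    exact ⟨by linarith [h1.1], by linarith [h1.2]⟩
  set X : ℝ → ℝ := fun t => ∑ i ∈ Finset.range m, (tr U (i * s)).indicator (fun _ => (1 : ℝ)) t
    with hX
  set Ac : ℝ → Finset ℕ := fun t => (Finset.range m).filter (fun i : ℕ => t ∈ tr U (i * s)) with hAc
  have hXc : ∀ t, X t = (Ac t).card := by
    intro t
    simp only [hX, hAc, Set.indicator_apply]
    rw [Finset.sum_boole]
  set G : Set ℝ := ⋃ i ∈ Finset.range m, ⋃ d ∈ Finset.Ico 1 m, tr (E d) (i * s) with hG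
  have hGm : MeasurableSet G :=
    Finset.measurableSet_biUnion _ fun i _ => Finset.measurableSet_biUnion _ fun d _ =>
      tr_meas (hEm d) _
  -- the points with many translates
  have hpt : ∀ t, X t ≤ δ * m + m * G.indicator (fun _ => (1 : ℝ)) t := by
    intro t
    by_cases hc : X t ≤ δ * m
    · have : 0 ≤ G.indicator (fun _ => (1 : ℝ)) t := Set.indicator_nonneg (fun _ _ => zero_le_one) t
      nlinarith
    · push Not at hc
      have hcard : δ * m ≤ (Ac t).card := by rw [← hXc]; exact hc.le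
      have hne := roth_3ap_theorem_nat δ hδ hm (Ac t) (Finset.filter_subset _ _) hcard
      have htG : t ∈ G := by
        unfold ThreeAPFree at hne
        push Not at hne
        obtain ⟨a, ha, b, hb, c, hc', habc, hab⟩ := hne
        rw [Finset.mem_coe, hAc, Finset.mem_filter, Finset.mem_range] at ha hb hc'
        rw [hG]
        simp only [Set.mem_iUnion]
        rcases lt_or_gt_of_ne hab with h | h
        · refine ⟨a, Finset.mem_range.mpr ha.1, b - a, Finset.mem_Ico.mpr ⟨by omega, by omega⟩,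
            ?_, ?_, ?_⟩
          · exact ha.2
          · have h1 : t - b * s ∈ U := hb.2
            have e : t - a * s - ((b - a : ℕ) : ℝ) * s = t - b * s := by
              rw [Nat.cast_sub h.le]; ring
            rw [e]; exact h1
          · have h1 : t - c * s ∈ U := hc'.2
            have h2 : (a : ℝ) + c = b + b := by exact_mod_cast habc
            have e : t - a * s - 2 * ((b - a : ℕ) : ℝ) * s = t - c * s := by
              rw [Nat.cast_sub h.le]
              linear_combination s * h2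
            rw [e]; exact h1
        · refine ⟨c, Finset.mem_range.mpr hc'.1, b - c, Finset.mem_Ico.mpr ⟨by omega, by omega⟩,
            ?_, ?_, ?_⟩
          · exact hc'.2
          · have h1 : t - b * s ∈ U := hb.2
            have e : t - c * s - ((b - c : ℕ) : ℝ) * s = t - b * s := by
              rw [Nat.cast_sub (by omega)]; ring
            rw [e]; exact h1
          · have h1 : t - a * s ∈ U := ha.2
            have h2 : (a : ℝ) + c = b + b := by exact_mod_cast habc
            have e : t - c * s - 2 * ((b - c : ℕ) : ℝ) * s = t - a * s := by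
              rw [Nat.cast_sub (by omega)]
              linear_combination s * h2
            rw [e]; exact h1
      rw [Set.indicator_of_mem htG, hXc]
      have : ((Ac t).card : ℝ) ≤ m := by
        have h1 : (Ac t).card ≤ m := by
          have := Finset.card_filter_le (Finset.range m) (fun i : ℕ => t ∈ tr U (i * s))
          rw [Finset.card_range] at this
          exact this
        exact_mod_cast h1
      have : 0 ≤ δ * m := by positivity
      linarith
  -- integrate
  have hint1 : ∀ {E' : Set ℝ}, MeasurableSet E' →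
      IntegrableOn (E'.indicator (fun _ => (1 : ℝ))) J := by
    intro E' hE'
    refine Integrable.indicator ?_ hE'
    exact integrableOn_const hJf
  have hI : ∀ {E' : Set ℝ}, MeasurableSet E' →
      ∫ t in J, E'.indicator (fun _ => (1 : ℝ)) t = (volume (E' ∩ J)).toReal := by
    intro E' hE'
    rw [integral_indicator hE', Measure.restrict_restrict hE']
    simp [Measure.real]
  have e1 : ∫ t in J, X t = m * (volume U).toReal := by
    simp only [hX]
    rw [integral_finsetSum _ fun i _ => hint1 (tr_meas hU _)]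
    have h0 : ∀ i ∈ Finset.range m, ∫ t in J, (tr U ((i : ℕ) * s)).indicator (fun _ => (1 : ℝ)) t =
        (volume U).toReal := by
      intro i hi
      rw [hI (tr_meas hU _), inter_eq_left.mpr (htrJ i hi), tr_vol]
    rw [Finset.sum_congr rfl h0]
    simp
  have hintX : IntegrableOn X J := by
    simp only [hX]
    exact integrable_finsetSum _ fun i _ => hint1 (tr_meas hU _)
  have h1 : ∫ t in J, X t ≤ ∫ t in J, (δ * m + m * G.indicator (fun _ => (1 : ℝ)) t) := by
    refine setIntegral_mono hintX ?_ hpt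
    exact (integrableOn_const hJf).add ((hint1 hGm).const_mul _)
  have e2 : ∫ t in J, (δ * m + m * G.indicator (fun _ => (1 : ℝ)) t) =
      δ * m * L + m * (volume (G ∩ J)).toReal := by
    have hc1 : IntegrableOn (fun _ : ℝ => δ * (m : ℝ)) J := integrableOn_const hJf
    have hc2 : IntegrableOn (fun t => (m : ℝ) * G.indicator (fun _ => (1 : ℝ)) t) J :=
      (hint1 hGm).const_mul _
    have hc3 : ∫ t in J, (δ * (m : ℝ)) = δ * m * L := by
      rw [setIntegral_const, Measure.real, hJv, smul_eq_mul]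
      ring
    have hc4 : ∫ t in J, (m : ℝ) * G.indicator (fun _ => (1 : ℝ)) t =
        m * (volume (G ∩ J)).toReal := by
      rw [integral_const_mul, hI hGm]
    rw [integral_add hc1 hc2, hc3, hc4]
  rw [e1, e2] at h1
  -- the measure of `G`
  have hEv : ∀ d, volume (E d) ≠ ⊤ := by
    intro d
    refine ne_top_of_le_ne_top ?_ (measure_mono (show E d ⊆ Ioo A B from fun t ht => hUs ht.1))
    rw [Real.volume_Ioo]; exact ENNReal.ofReal_ne_top
  have h2 : volume G ≤ ∑ i ∈ Finset.range m, ∑ d ∈ Finset.Ico 1 m, volume (E d) := by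
    refine (measure_biUnion_finset_le _ _).trans (Finset.sum_le_sum fun i _ => ?_)
    refine (measure_biUnion_finset_le _ _).trans (Finset.sum_le_sum fun d _ => ?_)
    rw [tr_vol]
  have h3 : (volume (G ∩ J)).toReal ≤ m * ∑ d ∈ Finset.Ico 1 m, (volume (E d)).toReal := by
    have h4 : volume (G ∩ J) ≤ ∑ i ∈ Finset.range m, ∑ d ∈ Finset.Ico 1 m, volume (E d) :=
      (measure_mono inter_subset_left).trans h2
    have h5 := ENNReal.toReal_mono (by
      refine ENNReal.sum_ne_top.mpr fun i _ => ENNReal.sum_ne_top.mpr fun d _ => hEv d) h4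
    rw [Finset.sum_const, Finset.card_range, nsmul_eq_mul, ENNReal.toReal_mul,
      ENNReal.toReal_natCast, ENNReal.toReal_sum fun d _ => hEv d] at h5
    exact h5
  have h4 : ∑ d ∈ Finset.Ico 1 m, (volume (E d)).toReal ≤
      ∑ d ∈ Finset.Ico 1 m, δ * L / m ^ 2 := by
    refine Finset.sum_le_sum fun d hd => ?_
    rw [Finset.mem_Ico] at hd
    exact (hcon d hd.1 hd.2).le
  rw [Finset.sum_const, Nat.card_Ico, nsmul_eq_mul, Nat.cast_sub hm0] at h4
  have h5 : (m : ℝ) * ((m - (1 : ℕ)) * (δ * L / m ^ 2)) < δ * L := by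
    have e : (m : ℝ) * ((m - (1 : ℕ)) * (δ * L / m ^ 2)) = δ * L * (1 - 1 / m) := by
      push_cast
      field_simp
    rw [e]
    have : 0 < 1 / (m : ℝ) := by positivity
    have : 0 < δ * L := by positivity
    nlinarith
  have h6 : (volume (G ∩ J)).toReal < δ * L := by
    refine lt_of_le_of_lt h3 (lt_of_le_of_lt (mul_le_mul_of_nonneg_left h4 (by positivity)) h5)
  have h7 : (m : ℝ) * (volume U).toReal < δ * m * L + m * (δ * L) := by
    have : (m : ℝ) * (volume (G ∩ J)).toReal < m * (δ * L) :=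
      mul_lt_mul_of_pos_left h6 (by linarith)
    linarith
  have h8 : (m : ℝ) * (2 * δ * L) ≤ m * (volume U).toReal :=
    mul_le_mul_of_nonneg_left hUv (by linarith)
  nlinarith

/-- the number of triples with both differences near `s` -/
noncomputable def TT (S : Finset ℝ) (s w : ℝ) : ℕ := by
  classical
  exact ((S ×ˢ (S ×ˢ S)).filter
    (fun p : ℝ × ℝ × ℝ => |p.1 - p.2.1 - s| < w ∧ |p.2.1 - p.2.2 - s| < w)).card

lemma TT_vol {S : Finset ℝ} {s w : ℝ} (hw : 0 < w) :
    (volume {t : ℝ | t ∈ UU (w / 2) S ∧ t - s ∈ UU (w / 2) S ∧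
      t - 2 * s ∈ UU (w / 2) S}).toReal ≤ w * TT S s w := by
  classical
  set P := (S ×ˢ (S ×ˢ S)).filter
    (fun p : ℝ × ℝ × ℝ => |p.1 - p.2.1 - s| < w ∧ |p.2.1 - p.2.2 - s| < w) with hP
  have hsub : {t : ℝ | t ∈ UU (w / 2) S ∧ t - s ∈ UU (w / 2) S ∧ t - 2 * s ∈ UU (w / 2) S} ⊆
      ⋃ p ∈ P, Ioo (p.1 - w / 2) (p.1 + w / 2) := by
    rintro t ⟨⟨x, hx, hx1, hx2⟩, ⟨y, hy, hy1, hy2⟩, ⟨z, hz, hz1, hz2⟩⟩
    rw [Set.mem_iUnion₂]
    refine ⟨(x, y, z), ?_, hx1, hx2⟩
    rw [hP, Finset.mem_filter]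
    refine ⟨Finset.mem_product.mpr ⟨hx, Finset.mem_product.mpr ⟨hy, hz⟩⟩, ?_, ?_⟩
    · rw [abs_lt]; constructor <;> linarith
    · rw [abs_lt]; constructor <;> linarith
  have h2 : volume {t : ℝ | t ∈ UU (w / 2) S ∧ t - s ∈ UU (w / 2) S ∧
      t - 2 * s ∈ UU (w / 2) S} ≤ ENNReal.ofReal (w * TT S s w) := by
    refine (measure_mono hsub).trans ((measure_biUnion_finset_le _ _).trans ?_)
    simp_rw [Real.volume_Ioo]
    have h3 : ∀ p ∈ P, ENNReal.ofReal (p.1 + w / 2 - (p.1 - w / 2)) = ENNReal.ofReal w := by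
      intro p _
      congr 1
      ring
    rw [Finset.sum_congr rfl h3, Finset.sum_const, nsmul_eq_mul, mul_comm w,
      ENNReal.ofReal_mul (Nat.cast_nonneg _), ENNReal.ofReal_natCast]
    rfl
  exact ENNReal.toReal_le_of_le_ofReal (by positivity) h2

/-- triples in arithmetic progression -/
theorem roth_fin {S : Finset ℝ} {A H r p δ κ σ s : ℝ} (hσ : 0 < σ) (hH : 0 < H) (hr : 0 < r)
    (hδ : 0 < δ) (hS : ∀ x ∈ S, A ≤ x ∧ x ≤ A + H)
    (hU : r * p * H ≤ (volume (UU (r * σ / 2) S)).toReal)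
    (hκ : κ + r * σ / H ≤ 1) (hδp : 4 * δ ≤ r * p) {m : ℕ} (hm0 : 1 ≤ m)
    (hm : cornersTheoremBound (δ / 3) ≤ m) (hs : 0 ≤ s) (hsD : m * s ≤ κ * H) :
    ∃ d : ℕ, 1 ≤ d ∧ d < m ∧ δ / (r * m ^ 2) * (H / σ) ≤ TT S (d * s) (r * σ) := by
  have hw : 0 < r * σ := mul_pos hr hσ
  have hκ0 : 0 ≤ κ * H := le_trans (by positivity) hsD
  have hL : A + H + r * σ / 2 - (A - r * σ / 2) + κ * H = H * (1 + (κ + r * σ / H)) := by
    field_simp; ring
  obtain ⟨d, h1, h2, h3⟩ := roth_vol (U := UU (r * σ / 2) S) (UU_open _ _).measurableSet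
    (A := A - r * σ / 2) (B := A + H + r * σ / 2) (δ := δ) (s := s) (D := κ * H)
    (UU_sub hS) (by linarith) hδ hm0 hm hs hsD (by
      rw [hL]
      refine le_trans ?_ hU
      have h4 : H * (1 + (κ + r * σ / H)) ≤ H * 2 := mul_le_mul_of_nonneg_left (by linarith) hH.le
      have h5 : 2 * δ * (H * (1 + (κ + r * σ / H))) ≤ 2 * δ * (H * 2) :=
        mul_le_mul_of_nonneg_left h4 (by positivity)
      nlinarith)
  refine ⟨d, h1, h2, ?_⟩
  have h4 := h3.trans (le_trans (le_of_eq (by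
    congr 3
    ext t
    simp only [mul_assoc])) (TT_vol (S := S) (s := d * s) hw))
  rw [hL] at h4
  have hm1 : (1 : ℝ) ≤ m := by exact_mod_cast hm0
  have h5 : δ * H / m ^ 2 ≤ δ * (H * (1 + (κ + r * σ / H))) / m ^ 2 := by
    apply div_le_div_of_nonneg_right _ (by positivity)
    apply mul_le_mul_of_nonneg_left _ hδ.le
    have h7 : 0 ≤ κ * H + r * σ := by positivity
    have : H * (1 + (κ + r * σ / H)) = H + (κ * H + r * σ) := by field_simp
    rw [this]; linarith
  have h6 := h5.trans h4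
  refine le_of_mul_le_mul_left ?_ hw
  refine le_trans (le_of_eq ?_) h6
  field_simp

end Pool.Agent.TH300.ZS
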