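import Pool.Agent.TH300.ZS.Fin

/-!
# Triples in arithmetic progression
-/

open Set MeasureTheory
open scoped BigOperators

namespace Pool.Agent.TH300.ZS

open Pool.Agent.W201

/-- the number of triples `(x, y, z)` of points of `S` with `|x - z - 2 s| < w`, `|y - z - s| < w`
and `|x - y - s| < w` -/
noncomputable def T3 (S : Finset ℝ) (s w : ℝ) : ℕ := by
  classical
  exact ((S ×ˢ (S ×ˢ S)).filter
    (fun p : ℝ × ℝ × ℝ => |p.1 - p.2.2 - 2 * s| < w ∧ |p.2.1 - p.2.2 - s| < w ∧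
      |p.1 - p.2.1 - s| < w)).card

lemma T3_vol {S : Finset ℝ} {s w : ℝ} (hw : 0 < w) :
    (volume {t : ℝ | t ∈ UU (w / 2) S ∧ t - s ∈ UU (w / 2) S ∧
      t - 2 * s ∈ UU (w / 2) S}).toReal ≤ w * T3 S s w := by
  classical
  set P := (S ×ˢ (S ×ˢ S)).filter
    (fun p : ℝ × ℝ × ℝ => |p.1 - p.2.2 - 2 * s| < w ∧ |p.2.1 - p.2.2 - s| < w ∧
      |p.1 - p.2.1 - s| < w) with hP
  have hsub : {t : ℝ | t ∈ UU (w / 2) S ∧ t - s ∈ UU (w / 2) S ∧ t - 2 * s ∈ UU (w / 2) S} ⊆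
      ⋃ p ∈ P, Ioo (p.1 - w / 2) (p.1 + w / 2) := by
    rintro t ⟨⟨x, hx, hx1, hx2⟩, ⟨y, hy, hy1, hy2⟩, ⟨z, hz, hz1, hz2⟩⟩
    rw [Set.mem_iUnion₂]
    refine ⟨(x, y, z), ?_, hx1, hx2⟩
    rw [hP, Finset.mem_filter]
    refine ⟨Finset.mem_product.mpr ⟨hx, Finset.mem_product.mpr ⟨hy, hz⟩⟩, ?_, ?_, ?_⟩
    · simp only
      rw [abs_lt]; constructor <;> linarith
    · simp only
      rw [abs_lt]; constructor <;> linarith
    · simp only
      rw [abs_lt]; constructor <;> linarith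
  have h2 : volume {t : ℝ | t ∈ UU (w / 2) S ∧ t - s ∈ UU (w / 2) S ∧
      t - 2 * s ∈ UU (w / 2) S} ≤ ENNReal.ofReal (w * T3 S s w) := by
    refine (measure_mono hsub).trans ((measure_biUnion_finset_le _ _).trans ?_)
    simp_rw [Real.volume_Ioo]
    have h3 : ∀ p ∈ P, ENNReal.ofReal (p.1 + w / 2 - (p.1 - w / 2)) = ENNReal.ofReal w := by
      intro p _
      congr 1
      ring
    rw [Finset.sum_congr rfl h3, Finset.sum_const, nsmul_eq_mul, mul_comm w,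
      ENNReal.ofReal_mul (Nat.cast_nonneg _), ENNReal.ofReal_natCast]
    rfl
  exact ENNReal.toReal_le_of_le_ofReal (by positivity) h2

/-- triples in arithmetic progression -/
theorem roth_fin3 {S : Finset ℝ} {A H r p δ κ σ s : ℝ} (hσ : 0 < σ) (hH : 0 < H) (hr : 0 < r)
    (hδ : 0 < δ) (hS : ∀ x ∈ S, A ≤ x ∧ x ≤ A + H)
    (hU : r * p * H ≤ (volume (UU (r * σ / 2) S)).toReal)
    (hκ : κ + r * σ / H ≤ 1) (hδp : 4 * δ ≤ r * p) {m : ℕ} (hm0 : 1 ≤ m)
    (hm : cornersTheoremBound (δ / 3) ≤ m) (hs : 0 ≤ s) (hsD : m * s ≤ κ * H) :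
    ∃ d : ℕ, 1 ≤ d ∧ d < m ∧ δ / (r * m ^ 2) * (H / σ) ≤ T3 S (d * s) (r * σ) := by
  have hw : 0 < r * σ := mul_pos hr hσ
  have hκ0 : 0 ≤ κ * H := le_trans (by positivity) hsD
  have hL : A + H + r * σ / 2 - (A - r * σ / 2) + κ * H = H * (1 + (κ + r * σ / H)) := by
    field_simp; ring
  obtain ⟨d, h1, h2, h3⟩ := roth_vol (U := UU (r * σ / 2) S) (UU_open _ _).measurableSet
    (A := A - r * σ / 2) (B := A + H + r * σ / 2) (δ := δ) (s := s) (D := κ * H)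
    (UU_sub hS) (by linarith) hδ hm0 hm hs hsD (by
      rw [hL]
      refine le_trans ?_ hU
      have h4 : H * (1 + (κ + r * σ / H)) ≤ H * 2 := mul_le_mul_of_nonneg_left (by linarith) hH.le
      have h5 : 2 * δ * (H * (1 + (κ + r * σ / H))) ≤ 2 * δ * (H * 2) :=
        mul_le_mul_of_nonneg_left h4 (by positivity)
      nlinarith)
  refine ⟨d, h1, h2, ?_⟩
  have h4 := h3.trans (le_trans (le_of_eq (by
    congr 3
    ext t
    simp only [mul_assoc])) (T3_vol (S := S) (s := d * s) hw))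
  rw [hL] at h4
  have hm1 : (1 : ℝ) ≤ m := by exact_mod_cast hm0
  have h5 : δ * H / m ^ 2 ≤ δ * (H * (1 + (κ + r * σ / H))) / m ^ 2 := by
    apply div_le_div_of_nonneg_right _ (by positivity)
    apply mul_le_mul_of_nonneg_left _ hδ.le
    have h7 : 0 ≤ κ * H + r * σ := by positivity
    have : H * (1 + (κ + r * σ / H)) = H + (κ * H + r * σ) := by field_simp
    rw [this]; linarith
  have h6 := h5.trans h4
  refine le_of_mul_le_mul_left ?_ hw
  refine le_trans (le_of_eq ?_) h6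
  field_simp

end Pool.Agent.TH300.ZS
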