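import Pool.Agent.TH300.ZS.Ovl
import Pool.Agent.W201.Chain

/-!
# From overlaps of neighbourhoods to families of points
-/

open Set MeasureTheory
open scoped BigOperators

namespace Pool.Agent.TH300.ZS

open Pool.Agent.W201

/-- the number of families `(x_i)`, `i ∈ I`, of points of `S` such that the numbers `x_i + a_i` are
pairwise at distance less than `w` -/
noncomputable def tup {ι : Type*} [DecidableEq ι] (S : Finset ℝ) (a : ι → ℝ) (I : Finset ι)
    (w : ℝ) : ℕ := by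
  classical
  exact ((Fintype.piFinset fun _ : I => S).filter
    (fun x => ∀ i j : I, |x i + a i - (x j + a j)| < w)).card

lemma UU_int {ρ A B : ℝ} {S : Finset ℝ} (hS : ∀ x ∈ S, A ≤ x ∧ x ≤ B) (s : ℝ) :
    tr (UU ρ S) s ⊆ Ioo (A - ρ + s) (B + ρ + s) := by
  intro t ht
  have := UU_sub (r := ρ) hS ht
  exact ⟨by linarith [this.1], by linarith [this.2]⟩

lemma tup_vol {ι : Type*} [DecidableEq ι] {S : Finset ℝ} (a : ι → ℝ) {I : Finset ι}
    (hI : I.Nonempty) {w : ℝ} (hw : 0 < w) (J : Set ℝ) :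
    (volume {t : ℝ | t ∈ J ∧ ∀ i ∈ I, t ∈ tr (UU (w / 2) S) (a i)}).toReal ≤
      w * tup S a I w := by
  classical
  set P := (Fintype.piFinset fun _ : I => S).filter
    (fun x => ∀ i j : I, |x i + a i - (x j + a j)| < w) with hP
  obtain ⟨i₀, hi₀⟩ := hI
  have hsub : {t : ℝ | t ∈ J ∧ ∀ i ∈ I, t ∈ tr (UU (w / 2) S) (a i)} ⊆
      ⋃ x ∈ P, Ioo (x ⟨i₀, hi₀⟩ + a i₀ - w / 2) (x ⟨i₀, hi₀⟩ + a i₀ + w / 2) := by
    rintro t ⟨-, ht⟩
    have h1 : ∀ i : I, ∃ x ∈ S, |t - (x + a i)| < w / 2 := by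
      intro i
      obtain ⟨x, hx, h1, h2⟩ := ht i i.2
      refine ⟨x, hx, ?_⟩
      rw [abs_lt]
      constructor <;> linarith
    choose x hx hxt using h1
    rw [Set.mem_iUnion₂]
    refine ⟨x, ?_, ?_⟩
    · rw [hP, Finset.mem_filter, Fintype.mem_piFinset]
      refine ⟨hx, fun i j => ?_⟩
      have h1 := abs_lt.mp (hxt i)
      have h2 := abs_lt.mp (hxt j)
      rw [abs_lt]
      constructor <;> linarith [h1.1, h1.2, h2.1, h2.2]
    · have h1 := abs_lt.mp (hxt ⟨i₀, hi₀⟩)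
      simp only at h1
      exact ⟨by linarith [h1.2], by linarith [h1.1]⟩
  have h2 : volume {t : ℝ | t ∈ J ∧ ∀ i ∈ I, t ∈ tr (UU (w / 2) S) (a i)} ≤
      ENNReal.ofReal (w * tup S a I w) := by
    refine (measure_mono hsub).trans ((measure_biUnion_finset_le _ _).trans ?_)
    simp_rw [Real.volume_Ioo]
    have h3 : ∀ x ∈ P, ENNReal.ofReal (x ⟨i₀, hi₀⟩ + a i₀ + w / 2 -
        (x ⟨i₀, hi₀⟩ + a i₀ - w / 2)) = ENNReal.ofReal w := by
      intro x _
      congr 1
      ring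
    rw [Finset.sum_congr rfl h3, Finset.sum_const, nsmul_eq_mul, mul_comm w,
      ENNReal.ofReal_mul (Nat.cast_nonneg _), ENNReal.ofReal_natCast]
    rfl
  refine ENNReal.toReal_le_of_le_ofReal (by positivity) h2

/-- two points -/
lemma pair_vol {S : Finset ℝ} (b c : ℝ) {w : ℝ} (J : Set ℝ) :
    (volume {t : ℝ | t ∈ J ∧ t ∈ tr (UU (w / 2) S) b ∧ t ∈ tr (UU (w / 2) S) c}).toReal ≤
      ∑ x ∈ S, ∑ y ∈ S, max 0 (w - |x - y - (c - b)|) := by
  classical
  have hsub : {t : ℝ | t ∈ J ∧ t ∈ tr (UU (w / 2) S) b ∧ t ∈ tr (UU (w / 2) S) c} ⊆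
      ⋃ x ∈ S, ⋃ y ∈ S, Ioo (max (x + b - w / 2) (y + c - w / 2))
        (min (x + b + w / 2) (y + c + w / 2)) := by
    rintro t ⟨-, ⟨x, hx, hx1, hx2⟩, ⟨y, hy, hy1, hy2⟩⟩
    simp only [Set.mem_iUnion]
    refine ⟨x, hx, y, hy, max_lt ?_ ?_, lt_min ?_ ?_⟩ <;> linarith
  have h2 : volume {t : ℝ | t ∈ J ∧ t ∈ tr (UU (w / 2) S) b ∧ t ∈ tr (UU (w / 2) S) c} ≤
      ∑ x ∈ S, ∑ y ∈ S, ENNReal.ofReal (max 0 (w - |x - y - (c - b)|)) := by
    refine (measure_mono hsub).trans ((measure_biUnion_finset_le _ _).trans ?_)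
    refine Finset.sum_le_sum fun x _ => (measure_biUnion_finset_le _ _).trans ?_
    refine Finset.sum_le_sum fun y _ => ?_
    rw [Real.volume_Ioo]
    apply ENNReal.ofReal_le_ofReal
    refine le_trans ?_ (le_max_right _ _)
    rcases le_total 0 (x - y - (c - b)) with h | h
    · rw [abs_of_nonneg h]
      have h1 := le_max_left (x + b - w / 2) (y + c - w / 2)
      have h2 := min_le_right (x + b + w / 2) (y + c + w / 2)
      linarith
    · rw [abs_of_nonpos h]
      have h1 := le_max_right (x + b - w / 2) (y + c - w / 2)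
      have h2 := min_le_left (x + b + w / 2) (y + c + w / 2)
      linarith
  have h3 : ∑ x ∈ S, ∑ y ∈ S, ENNReal.ofReal (max 0 (w - |x - y - (c - b)|)) =
      ENNReal.ofReal (∑ x ∈ S, ∑ y ∈ S, max 0 (w - |x - y - (c - b)|)) := by
    rw [ENNReal.ofReal_sum_of_nonneg fun x _ => Finset.sum_nonneg fun y _ => le_max_left _ _]
    refine Finset.sum_congr rfl fun x _ => ?_
    rw [ENNReal.ofReal_sum_of_nonneg fun y _ => le_max_left _ _]
  rw [h3] at h2
  exact ENNReal.toReal_le_of_le_ofReal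
    (Finset.sum_nonneg fun x _ => Finset.sum_nonneg fun y _ => le_max_left _ _) h2

lemma powerset_two {m : ℕ} (f : Finset (Fin m) → ℝ) :
    ∑ I ∈ Finset.powersetCard 2 (Finset.univ : Finset (Fin m)), f I =
      ∑ p ∈ (Finset.univ : Finset (Fin m × Fin m)).filter (fun p => p.1 < p.2),
        f {p.1, p.2} := by
  classical
  symm
  refine Finset.sum_bij (fun p _ => {p.1, p.2}) ?_ ?_ ?_ ?_
  · intro p hp
    have h1 := (Finset.mem_filter.mp hp).2
    rw [Finset.mem_powersetCard]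
    exact ⟨Finset.subset_univ _, Finset.card_pair h1.ne⟩
  · rintro ⟨a, b⟩ hp ⟨c, d⟩ hq h
    have h1 : a < b := (Finset.mem_filter.mp hp).2
    have h2 : c < d := (Finset.mem_filter.mp hq).2
    simp only at h
    have ha : a = c ∨ a = d := by
      have : a ∈ ({c, d} : Finset (Fin m)) := h ▸ Finset.mem_insert_self _ _
      simpa using this
    have hb : b = c ∨ b = d := by
      have : b ∈ ({c, d} : Finset (Fin m)) := h ▸ Finset.mem_insert_of_mem (Finset.mem_singleton_self _)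
      simpa using this
    rcases ha with rfl | rfl
    · rcases hb with rfl | rfl
      · exact absurd h1 (lt_irrefl _)
      · rfl
    · rcases hb with rfl | rfl
      · exact absurd (h1.trans h2) (lt_irrefl _)
      · exact absurd h1 (lt_irrefl _)
  · intro I hI
    rw [Finset.mem_powersetCard] at hI
    obtain ⟨x, y, hxy, rfl⟩ := Finset.card_eq_two.mp hI.2
    rcases lt_or_gt_of_ne hxy with h | h
    · exact ⟨(x, y), by simp [h], rfl⟩
    · exact ⟨(y, x), by simp [h], Finset.pair_comm _ _⟩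
  · intro p _
    rfl

/-- sum over the pairs `i < j` of the indices, of the weights of the pairs of points -/
noncomputable def PW {m : ℕ} (S : Finset ℝ) (a : Fin m → ℝ) (w : ℝ) : ℝ :=
  ∑ p ∈ (Finset.univ : Finset (Fin m × Fin m)).filter (fun p => p.1 < p.2),
    ∑ x ∈ S, ∑ y ∈ S, max 0 (w - |x - y - (a p.2 - a p.1)|)

/-- The inequality for the pairs. -/
theorem pairs_ineq {S : Finset ℝ} {A B D w : ℝ} (hS : ∀ x ∈ S, A ≤ x ∧ x ≤ B) (hAB : A ≤ B)
    (hw : 0 < w) {m : ℕ} (a : Fin m → ℝ) (ha : ∀ i, 0 ≤ a i ∧ a i ≤ D) (hD : 0 ≤ D) (n : ℕ) :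
    (n : ℝ) * (m * (volume (UU (w / 2) S)).toReal) - (n + 1).choose 2 * (B - A + D + w) ≤
      PW S a w := by
  classical
  have h1 := overlap (U := UU (w / 2) S) (J := Ioo (A - w / 2) (B + w / 2 + D))
    (UU_open _ _).measurableSet measurableSet_Ioo (by rw [Real.volume_Ioo]; exact ENNReal.ofReal_ne_top)
    a (fun i => (UU_int hS (a i)).trans (Ioo_subset_Ioo (by linarith [(ha i).1])
      (by linarith [(ha i).2]))) 1 n
  rw [Real.volume_Ioo, ENNReal.toReal_ofReal (by linarith), Nat.choose_one_right] at h1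
  have e : B + w / 2 + D - (A - w / 2) = B - A + D + w := by ring
  rw [e] at h1
  refine le_trans (le_of_eq ?_) (h1.trans ?_)
  · push_cast
    ring
  · rw [powerset_two]
    unfold PW
    refine Finset.sum_le_sum fun p _ => ?_
    refine le_trans (le_of_eq ?_) (pair_vol (S := S) (a p.1) (a p.2) (w := w)
      (Ioo (A - w / 2) (B + w / 2 + D)))
    congr 2
    ext t
    simp only [Set.mem_ofPred_eq, Finset.mem_insert, Finset.mem_singleton, forall_eq_or_imp,
      forall_eq]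

/-- The inequality for the families. -/
theorem tup_ineq {S : Finset ℝ} {A B D w : ℝ} (hS : ∀ x ∈ S, A ≤ x ∧ x ≤ B) (hAB : A ≤ B)
    (hw : 0 < w) {m : ℕ} (a : Fin m → ℝ) (ha : ∀ i, 0 ≤ a i ∧ a i ≤ D) (hD : 0 ≤ D) (k n : ℕ) :
    (n.choose k : ℝ) * (m * (volume (UU (w / 2) S)).toReal) -
        k * (n + 1).choose (k + 1) * (B - A + D + w) ≤
      w * ∑ I ∈ Finset.powersetCard (k + 1) (Finset.univ : Finset (Fin m)), (tup S a I w : ℝ) := by
  classical
  have h1 := overlap (U := UU (w / 2) S) (J := Ioo (A - w / 2) (B + w / 2 + D))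
    (UU_open _ _).measurableSet measurableSet_Ioo (by rw [Real.volume_Ioo]; exact ENNReal.ofReal_ne_top)
    a (fun i => (UU_int hS (a i)).trans (Ioo_subset_Ioo (by linarith [(ha i).1])
      (by linarith [(ha i).2]))) k n
  rw [Real.volume_Ioo, ENNReal.toReal_ofReal (by linarith)] at h1
  have e : B + w / 2 + D - (A - w / 2) = B - A + D + w := by ring
  rw [e] at h1
  refine h1.trans ?_
  rw [Finset.mul_sum]
  refine Finset.sum_le_sum fun I hI => ?_
  have hI' : I.Nonempty := by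
    rw [← Finset.card_pos, (Finset.mem_powersetCard.mp hI).2]
    omega
  exact tup_vol a hI' hw _

/-- arithmetic of the error terms -/
lemma arith {C X mp p ε ε₁ M R : ℝ} (hC : 0 ≤ C) (hmp : 0 ≤ mp) (hp : p ≤ 2) (hε : 0 < ε)
    (hε₁ : ε₁ = ε / 3) (hM : 0 ≤ M) (hX : 0 ≤ X) (hR : 0 ≤ R)
    (h : (C * mp * (p - ε₁) - X * (1 + ε₁)) * M ≤ R) : (C * mp * (p - ε) - X) * M ≤ R := by
  have hCm : 0 ≤ C * mp := mul_nonneg hC hmp
  rcases le_or_gt (C * mp * p) X with h1 | h1
  · refine le_trans ?_ hR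
    apply mul_nonpos_of_nonpos_of_nonneg _ hM
    nlinarith
  · refine le_trans (mul_le_mul_of_nonneg_right ?_ hM) h
    rw [hε₁]
    nlinarith [mul_nonneg hCm hε.le]

end Pool.Agent.TH300.ZS
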