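import Pool.Agent.TH300.ZS.Nbhd
import Pool.Agent.TH300.ZS.Tup

/-!
# The measure of the neighbourhoods: asymptotic form
-/

open Complex Filter Topology Set MeasureTheory
open scoped BigOperators ComplexConjugate

namespace Pool.Agent.TH300.ZS

open H370 Pool.Agent.W201

/-- short intervals: the `r/2`-neighbourhoods (in mean spacings) of the simple critical zeros -/
theorem nbhd_asym {F : ℂ → ℂ} (hF : GoodL F) {h ε : ℝ} (hh : 0 < h) (hh1 : h ≤ 1) (hε : 0 < ε) :
    ∃ T0 : ℝ, 10 ≤ T0 ∧ ∀ T : ℝ, T0 ≤ T → ∀ H : ℝ, T ^ h ≤ H → H ≤ T →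
      ∃ S : Finset ℝ,
        (∀ x ∈ S, T < x ∧ x ≤ T + H ∧ (1 / 2 + I * x : ℂ) ∈ zset F T (T + H) ∧
          mult F (1 / 2 + I * x) = 1) ∧
        ∀ r : ℝ, 0 < r → h * r ≤ 9 / 10 →
          r * (2 - H295Iso.c0 h - ε) * H ≤
            (volume (UU (r * (2 * Real.pi / Real.log T) / 2) S)).toReal := by
  classical
  have hpi := Real.pi_pos
  have hpi4 := Real.pi_lt_d2
  obtain ⟨ρ, hρ0, hρ⟩ : ∃ ρ : ℝ, 0 < ρ ∧ ∀ θ : ℝ, |θ - h| < ρ →
      H295Iso.c0 θ ≤ H295Iso.c0 h + ε / 4 := by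
    have hcont := H295Iso.c0_cont (h := h) hh
    have h1 : ∀ᶠ x in 𝓝 h, H295Iso.c0 x < H295Iso.c0 h + ε / 4 :=
      hcont.eventually (gt_mem_nhds (by linarith))
    rw [Metric.eventually_nhds_iff] at h1
    obtain ⟨ρ, hρ0, hρ⟩ := h1
    exact ⟨ρ, hρ0, fun θ hθ => (hρ (y := θ) (by rw [Real.dist_eq]; exact hθ)).le⟩
  set d : ℝ := min (ρ / 2) (h / 2) with hd
  have hd0 : 0 < d := by rw [hd]; positivity
  have hd1 : d ≤ h / 2 := min_le_right _ _
  have hd2 : d ≤ ρ / 2 := min_le_left _ _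
  set θ : ℝ := h - d with hθ
  have hθ0 : 0 < θ := by rw [hθ]; linarith
  have hθh : θ ≤ h := by rw [hθ]; linarith
  have hcθ : H295Iso.c0 θ ≤ H295Iso.c0 h + ε / 4 := by
    apply hρ
    rw [hθ, show h - d - h = -d by ring, abs_neg, abs_of_pos (by linarith)]
    linarith
  set η : ℝ := ε / 56 with hη
  have hη0 : 0 < η := by rw [hη]; positivity
  obtain ⟨T1, hT1, hPC⟩ := H295Iso.pairShort hF h d η hd0 (by linarith) hh1 hη0
  have htop : Tendsto (fun T : ℝ => T ^ h) atTop atTop := tendsto_rpow_atTop hh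
  obtain ⟨T2, hT2⟩ := (htop.eventually_ge_atTop (max (4 / ε) 3)).exists_forall_of_atTop
  obtain ⟨T3, hT3⟩ := (Real.tendsto_log_atTop.eventually_ge_atTop
    (8 * Real.pi / h)).exists_forall_of_atTop
  refine ⟨max (max T1 T2) (max T3 10),
    (le_max_right _ _).trans (le_max_right _ _), fun T hTT H hH hHT => ?_⟩
  have hTT1 : T1 ≤ T := ((le_max_left _ _).trans (le_max_left _ _)).trans hTT
  have hTT2 := hT2 T (((le_max_right _ _).trans (le_max_left _ _)).trans hTT)
  have hTT3 := hT3 T (((le_max_left _ _).trans (le_max_right _ _)).trans hTT)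
  have hT10 : 10 ≤ T := ((le_max_right _ _).trans (le_max_right _ _)).trans hTT
  have hHK : 4 / ε ≤ H := ((le_max_left _ _).trans hTT2).trans hH
  have hH3 : 3 ≤ H := ((le_max_right _ _).trans hTT2).trans hH
  have hlog : 0 < Real.log T := by
    have : 0 < 8 * Real.pi / h := by positivity
    linarith
  obtain ⟨U1, U2, hU1, hU1', hU2, hU2', hNN, hQQ⟩ := hPC T hTT1 H hH hHT
  set σ : ℝ := 2 * Real.pi / Real.log T with hσ
  have hσ0 : 0 < σ := by positivity
  have hσh : σ ≤ h / 4 := by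
    rw [hσ, div_le_iff₀ hlog]
    rw [div_le_iff₀ hh] at hTT3
    linarith
  have hσ1 : σ ≤ 1 := by linarith
  set M : ℝ := H / (2 * Real.pi) * Real.log T with hM
  have hM0 : 0 < M := by positivity
  have hMσ : M = H / σ := by rw [hM, hσ]; field_simp
  have hMH : H ≤ M := by
    rw [hMσ, le_div_iff₀ hσ0]
    nlinarith
  have hM1 : H * Real.log T / (2 * Real.pi) = M := by rw [hM]; ring
  have hM2 : H * Real.log T = 2 * Real.pi * M := by rw [hM]; field_simp
  rw [hM1] at hNN hQQ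
  rw [hM2] at hNN
  have hU : 1 ≤ U1 := by linarith
  set Λ : ℝ := (h - d) * Real.log T with hΛ
  have hΛσ : Λ * σ = 2 * Real.pi * θ := by
    rw [hΛ, hσ, hθ]; field_simp
  refine ⟨SF F U1 U2, ?_, ?_⟩
  · intro x hx
    have h1 := SF_mem hF hU hx
    have h2 := H344.mem_SF.mp hx
    have h3 := (mem_Zf hF hU).mp h2.1
    have him : (1 / 2 + I * (x : ℂ)).im = x := by simp
    refine ⟨by linarith [h1.1], by linarith [h1.2], ⟨h3.1, h3.2.1, ?_, ?_, h3.2.2.2.2⟩, h2.2⟩
    · rw [him]; linarith [h1.1]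
    · rw [him]; linarith [h1.2]
  · intro r hr0 hrh
    have hrσ : r * σ ≤ 1 / 4 := by
      have : r * σ ≤ r * (h / 4) := mul_le_mul_of_nonneg_left hσh hr0.le
      linarith
    have hrσ0 : 0 < r * σ := mul_pos hr0 hσ0
    have h1 := nbhd hF hU (U2 := U2) (Λ := Λ) (ρ := r * σ / 2) (ν := 1 / (r * σ)) (by positivity)
      (by positivity) (scaleU hσ0 hr0 hθ0 (by
        have : r * θ ≤ r * h := mul_le_mul_of_nonneg_left hθh hr0.le
        linarith) hrσ hΛσ)
    have h2 := (abs_le.mp hNN).1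
    have h9 : M * (H295Iso.c0 (h - d) + η) ≤ M * (H295Iso.c0 h + ε / 4 + η) :=
      mul_le_mul_of_nonneg_left (by linarith) hM0.le
    have h10 : 1 ≤ ε / 4 * M := by
      have : 4 / ε ≤ M := hHK.trans hMH
      rw [div_le_iff₀ hε] at this
      linarith
    have h11 : η * (2 * Real.pi * M) ≤ ε / 8 * M := by
      have : η * (2 * Real.pi * M) = (η * (2 * Real.pi)) * M := by ring
      rw [this]
      apply mul_le_mul_of_nonneg_right _ hM0.le
      rw [hη]
      norm_num at hpi4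
      nlinarith
    have h12 : M * (2 - H295Iso.c0 h - ε) ≤
        1 / (r * σ) * (volume (UU (r * σ / 2) (SF F U1 U2))).toReal := by
      have h13 : M * η ≤ ε / 56 * M := by rw [hη]; linarith
      have h14 : M * (H295Iso.c0 h + ε / 4 + η) = M * H295Iso.c0 h + ε / 4 * M + M * η := by ring
      have h15 : 0 < ε * M := by positivity
      have h16 : M * (2 - H295Iso.c0 h - ε) = 2 * M - M * H295Iso.c0 h - ε * M := by ring
      rw [h16]
      linarith
    rw [one_div, inv_mul_eq_div, le_div_iff₀ hrσ0] at h12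
    refine le_trans (le_of_eq ?_) h12
    rw [hMσ]
    field_simp

end Pool.Agent.TH300.ZS
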