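import Pool.Agent.TH300.ZS.Asy
import Pool.Agent.H370R2.DirGood

/-!
# The measure of the neighbourhoods: the whole range for zeta
-/

open Complex Filter Topology Set MeasureTheory
open scoped BigOperators ComplexConjugate

namespace Pool.Agent.TH300.ZS

open H370 Pool.Agent.W201

/-- `S` is the set of the simple critical ordinates of zeta in `(0, T]` -/
def IsAF (T : ℝ) (S : Finset ℝ) : Prop :=
  ∀ x : ℝ, x ∈ S ↔ ((1 / 2 + I * x : ℂ) ∈ zset riemannZeta 0 T ∧
    mult riemannZeta (1 / 2 + I * x) = 1)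

lemma isAF_exists (T : ℝ) : ∃ S, IsAF T S := by
  have hfin : {x : ℝ | (1 / 2 + I * x : ℂ) ∈ zset riemannZeta 0 T ∧
      mult riemannZeta (1 / 2 + I * x) = 1}.Finite := by
    refine Set.Finite.of_finite_image (f := fun x : ℝ => (1 / 2 + I * x : ℂ))
      ((H370.zeta_zeros_finite T).subset ?_) ?_
    · rintro s ⟨x, hx, rfl⟩
      exact hx.1
    · intro x _ y _ hxy
      have := congrArg Complex.im hxy
      simpa using this
  refine ⟨hfin.toFinset, fun x => ?_⟩
  rw [Set.Finite.mem_toFinset]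
  rfl

lemma isAF_im {T : ℝ} {S : Finset ℝ} (hS : IsAF T S) {x : ℝ} (hx : x ∈ S) : 0 < x ∧ x ≤ T := by
  have h := (hS x).mp hx
  have him : (1 / 2 + I * (x : ℂ)).im = x := by simp
  have h1 := h.1.2.2.1
  have h2 := h.1.2.2.2.1
  rw [him] at h1 h2
  exact ⟨h1, h2⟩

lemma dyadic_nbhd {p T₁ : ℝ} (hp : 0 ≤ p) (hT₁ : 10 ≤ T₁)
    (h : ∀ T : ℝ, T₁ ≤ T → ∃ S : Finset ℝ,
        (∀ x ∈ S, T < x ∧ x ≤ T + T ∧ (1 / 2 + I * x : ℂ) ∈ zset riemannZeta T (T + T) ∧
          mult riemannZeta (1 / 2 + I * x) = 1) ∧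
        ∀ r : ℝ, 0 < r → 1 * r ≤ 9 / 10 →
          r * p * T ≤ (volume (UU (r * (2 * Real.pi / Real.log T) / 2) S)).toReal) :
    ∀ J : ℕ, ∀ T : ℝ, T₁ * 2 ^ J ≤ T → ∀ w : ℝ, 0 < w → w * Real.log T ≤ 2 * Real.pi * (9 / 10) →
      ∀ S : Finset ℝ, IsAF T S →
      p * (w / (2 * Real.pi) * Real.log (T / 2 ^ J)) * ((1 - 1 / 2 ^ J) * T) - J * w ≤
        (volume (UU (w / 2) S)).toReal := by
  have hpi := Real.pi_pos
  intro J
  induction J with
  | zero =>
    intro T _ w _ _ S _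
    simp
  | succ J ih =>
    intro T hT w hw hwT A hA
    have h2J : (1 : ℝ) ≤ 2 ^ J := one_le_pow₀ (by norm_num)
    have h2J0 : (0 : ℝ) < 2 ^ J := by positivity
    have hpow : (2 : ℝ) ^ (J + 1) = 2 ^ J * 2 := pow_succ _ _
    have hT2 : T₁ * 2 ^ J ≤ T / 2 := by
      rw [hpow] at hT
      linarith
    have hT20 : T₁ ≤ T / 2 := by nlinarith
    have hTpos : 0 < T := by linarith
    have e1 : T / 2 / 2 ^ J = T / 2 ^ (J + 1) := by rw [hpow, div_div, mul_comm]
    set l := Real.log (T / 2 ^ (J + 1)) with hl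
    have hTJ : T₁ ≤ T / 2 ^ (J + 1) := by
      rw [le_div_iff₀ (by positivity)]; exact hT
    have hl0 : 0 < l := Real.log_pos (by linarith)
    have hll : l ≤ Real.log (T / 2) := by
      apply Real.log_le_log (by linarith)
      rw [← e1]
      exact div_le_self (by linarith) h2J
    have hlT : Real.log (T / 2) ≤ Real.log T := Real.log_le_log (by linarith) (by linarith)
    have hwT2 : w * Real.log (T / 2) ≤ 2 * Real.pi * (9 / 10) :=
      (mul_le_mul_of_nonneg_left hlT hw.le).trans hwT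
    obtain ⟨A1, hA1⟩ := isAF_exists (T / 2)
    have h1 := ih (T / 2) hT2 w hw hwT2 A1 hA1
    rw [e1, ← hl] at h1
    obtain ⟨S, hS1, hS2⟩ := h (T / 2) hT20
    have hl2 : 0 < Real.log (T / 2) := hl0.trans_le hll
    have h3 := hS2 (w / (2 * Real.pi) * Real.log (T / 2)) (by positivity) (by
      rw [one_mul, div_mul_eq_mul_div, div_le_iff₀ (by positivity)]
      linarith)
    have e2 : w / (2 * Real.pi) * Real.log (T / 2) * (2 * Real.pi / Real.log (T / 2)) / 2 = w / 2 := by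
      field_simp
    rw [e2] at h3
    have h4 : p * (w / (2 * Real.pi) * l) * (T / 2) ≤ (volume (UU (w / 2) S)).toReal := by
      refine le_trans ?_ h3
      have : w / (2 * Real.pi) * l ≤ w / (2 * Real.pi) * Real.log (T / 2) :=
        mul_le_mul_of_nonneg_left hll (by positivity)
      have h5 : p * (w / (2 * Real.pi) * l) ≤ p * (w / (2 * Real.pi) * Real.log (T / 2)) :=
        mul_le_mul_of_nonneg_left this hp
      nlinarith
    -- inclusions
    have hsubS : S ⊆ A := by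
      intro x hx
      obtain ⟨a1, a2, a3, a4⟩ := hS1 x hx
      refine (hA x).mpr ⟨⟨a3.1, a3.2.1, ?_, ?_, a3.2.2.2.2⟩, a4⟩
      · have := a3.2.2.1
        linarith
      · have := a3.2.2.2.1
        linarith
    have hsubA : A1 ⊆ A := by
      intro x hx
      have h5 := (hA1 x).mp hx
      exact (hA x).mpr ⟨⟨h5.1.1, h5.1.2.1, h5.1.2.2.1, h5.1.2.2.2.1.trans (by linarith),
        h5.1.2.2.2.2⟩, h5.2⟩
    have hU1 : UU (w / 2) S ⊆ Ioo (T / 2 - w / 2) (T + w / 2) := by
      refine UU_sub fun x hx => ⟨(hS1 x hx).1.le, ?_⟩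
      have := (hS1 x hx).2.1
      linarith
    have hU2 : UU (w / 2) A1 ⊆ Ioo (0 - w / 2) (T / 2 + w / 2) :=
      UU_sub fun x hx => ⟨(isAF_im hA1 hx).1.le, (isAF_im hA1 hx).2⟩
    have hUA : UU (w / 2) A ⊆ Icc (0 - w / 2) (T + w / 2) := by
      refine (UU_sub (a := 0) (b := T) fun x hx =>
        ⟨(isAF_im hA hx).1.le, (isAF_im hA hx).2⟩).trans Ioo_subset_Icc_self
    -- remove the overlap
    have h6 := vol_add (C := UU (w / 2) A) hUA
      (A := UU (w / 2) S \ Ioo (T / 2 - w / 2) (T / 2 + w / 2)) (B := UU (w / 2) A1)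
      ((UU_open _ _).measurableSet.diff measurableSet_Ioo)
      (Set.sdiff_subset.trans (UU_mono hsubS)) (UU_mono hsubA) (by
        rw [Set.disjoint_left]
        rintro t ⟨ht1, ht2⟩ ht3
        exact ht2 ⟨(hU1 ht1).1, (hU2 ht3).2⟩)
    have h7 : (volume (UU (w / 2) S)).toReal ≤
        (volume (UU (w / 2) S \ Ioo (T / 2 - w / 2) (T / 2 + w / 2))).toReal + w := by
      have hf1 : volume (UU (w / 2) S \ Ioo (T / 2 - w / 2) (T / 2 + w / 2)) ≠ ⊤ :=
        vol_fin ((Set.sdiff_subset.trans hU1).trans Ioo_subset_Icc_self)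
      have hf2 : volume (Ioo (T / 2 - w / 2) (T / 2 + w / 2)) = ENNReal.ofReal w := by
        rw [Real.volume_Ioo]; congr 1; ring
      have h8 : volume (UU (w / 2) S) ≤
          volume (UU (w / 2) S \ Ioo (T / 2 - w / 2) (T / 2 + w / 2)) + ENNReal.ofReal w := by
        rw [← hf2]
        refine (measure_mono ?_).trans (measure_union_le _ _)
        intro t ht
        by_cases hc : t ∈ Ioo (T / 2 - w / 2) (T / 2 + w / 2)
        · exact Or.inr hc
        · exact Or.inl ⟨ht, hc⟩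
      have h9 := ENNReal.toReal_mono (ENNReal.add_ne_top.mpr ⟨hf1, ENNReal.ofReal_ne_top⟩) h8
      rw [ENNReal.toReal_add hf1 ENNReal.ofReal_ne_top, ENNReal.toReal_ofReal hw.le] at h9
      exact h9
    have h8 : p * (w / (2 * Real.pi) * l) * (T / 2) +
        (p * (w / (2 * Real.pi) * l) * ((1 - 1 / 2 ^ J) * (T / 2)) - J * w) - w ≤
        (volume (UU (w / 2) A)).toReal := by linarith
    refine le_trans (le_of_eq ?_) h8
    rw [hpow]
    push_cast
    field_simp
    ring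

/-- the whole range for zeta -/
theorem nbhd_full {ε : ℝ} (hε : 0 < ε) (hε1 : ε ≤ 1 / 2) :
    ∃ T0 : ℝ, 10 ≤ T0 ∧ ∀ T : ℝ, T0 ≤ T → ∀ S : Finset ℝ, IsAF T S →
      ∀ r : ℝ, 0 < r → r ≤ 9 / 10 →
        r * (2 - cMTinv - ε) * T ≤ (volume (UU (r * (2 * Real.pi / Real.log T) / 2) S)).toReal := by
  have hpi := Real.pi_pos
  have hcn := Expl.cMTinv_num
  have hcg := H344.cMTinv_ge
  obtain ⟨T₁, hT₁, h⟩ := nbhd_asym H370.good_zeta (h := 1) (ε := ε / 4) one_pos le_rfl (by linarith)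
  rw [Pool.Agent.H24R3.PairsShort.c0_one] at h
  set p : ℝ := 2 - cMTinv - ε / 4 with hp
  have hp0 : 0 ≤ p := by rw [hp]; linarith
  have hp1 : p ≤ 1 := by rw [hp]; linarith
  have hdy := dyadic_nbhd hp0 hT₁ (fun T hT => h T hT T (by rw [Real.rpow_one]) le_rfl)
  -- choice of `J`
  obtain ⟨J, hJ⟩ := exists_pow_lt_of_lt_one (show (0 : ℝ) < ε / 4 by linarith)
    (show (1 / 2 : ℝ) < 1 by norm_num)
  have hJ2 : 1 / (2 : ℝ) ^ J ≤ ε / 4 := by
    rw [one_div, ← inv_pow, ← one_div]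
    exact hJ.le
  have h2J : (1 : ℝ) ≤ 2 ^ J := one_le_pow₀ (by norm_num)
  obtain ⟨T₂, hT₂⟩ := (Real.tendsto_log_atTop.eventually_ge_atTop
    (4 / ε * Real.log (2 ^ J) + 2 * Real.pi)).exists_forall_of_atTop
  refine ⟨max (T₁ * 2 ^ J) (max T₂ (max (4 / ε * J) 10)),
    (le_max_right _ _).trans ((le_max_right _ _).trans (le_max_right _ _)),
    fun T hT S hS r hr0 hr1 => ?_⟩
  have hTT1 : T₁ * 2 ^ J ≤ T := (le_max_left _ _).trans hT
  have hTT2 := hT₂ T (((le_max_left _ _).trans (le_max_right _ _)).trans hT)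
  have hTT3 : 4 / ε * J ≤ T := ((le_max_left _ _).trans ((le_max_right _ _).trans
    (le_max_right _ _))).trans hT
  have hT10 : 10 ≤ T := ((le_max_right _ _).trans ((le_max_right _ _).trans
    (le_max_right _ _))).trans hT
  have hlog2 : 0 ≤ Real.log (2 ^ J) := Real.log_nonneg h2J
  have hlog : 0 < Real.log T := Real.log_pos (by linarith)
  have hσ1 : 2 * Real.pi ≤ Real.log T := by
    have : 0 ≤ 4 / ε * Real.log (2 ^ J) := by positivity
    linarith
  set w : ℝ := r * (2 * Real.pi / Real.log T) with hw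
  have hw0 : 0 < w := by positivity
  have h1 := hdy J T hTT1 w hw0 (by
    have : w * Real.log T = 2 * Real.pi * r := by rw [hw]; field_simp
    rw [this]
    exact mul_le_mul_of_nonneg_left hr1 (by positivity)) S hS
  refine le_trans ?_ h1
  have e1 : Real.log (T / 2 ^ J) = Real.log T - Real.log (2 ^ J) := by
    rw [Real.log_div (by linarith) (by positivity)]
  have h2 : Real.log (2 ^ J) ≤ ε / 4 * Real.log T := by
    have : 4 / ε * Real.log (2 ^ J) ≤ Real.log T := by linarith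
    have h3 := mul_le_mul_of_nonneg_left this (show 0 ≤ ε / 4 by linarith)
    have e : ε / 4 * (4 / ε * Real.log (2 ^ J)) = Real.log (2 ^ J) := by
      field_simp
    linarith
  have e2 : w / (2 * Real.pi) = r / Real.log T := by rw [hw]; field_simp
  rw [e1, e2]
  have h3 : r * (1 - ε / 4) ≤ r / Real.log T * (Real.log T - Real.log (2 ^ J)) := by
    rw [div_mul_eq_mul_div, le_div_iff₀ hlog]
    have : r * ((1 - ε / 4) * Real.log T) ≤ r * (Real.log T - Real.log (2 ^ J)) :=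
      mul_le_mul_of_nonneg_left (by linarith) hr0.le
    linarith
  have h4 : (1 - ε / 4) * T ≤ (1 - 1 / 2 ^ J) * T :=
    mul_le_mul_of_nonneg_right (by linarith) (by linarith)
  have h5 : (J : ℝ) * w ≤ ε / 4 * r * T := by
    have h6 : w ≤ r := by
      rw [hw]
      have : 2 * Real.pi / Real.log T ≤ 1 := by rw [div_le_one hlog]; exact hσ1
      nlinarith
    have h7 : (J : ℝ) ≤ ε / 4 * T := by
      have h3 := mul_le_mul_of_nonneg_left hTT3 (show 0 ≤ ε / 4 by linarith)
      have e : ε / 4 * (4 / ε * J) = J := by field_simp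
      linarith
    calc (J : ℝ) * w ≤ (ε / 4 * T) * r := mul_le_mul h7 h6 hw0.le (by positivity)
      _ = ε / 4 * r * T := by ring
  have h8 : p * (r * (1 - ε / 4)) * ((1 - ε / 4) * T) ≤
      p * (r / Real.log T * (Real.log T - Real.log (2 ^ J))) * ((1 - 1 / 2 ^ J) * T) := by
    apply mul_le_mul (mul_le_mul_of_nonneg_left h3 hp0) h4
    · apply mul_nonneg (by linarith) (by linarith)
    · apply mul_nonneg hp0
      exact le_trans (mul_nonneg hr0.le (by linarith)) h3
  have h9 : r * (2 - cMTinv - ε) * T + ε / 4 * r * T ≤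
      p * (r * (1 - ε / 4)) * ((1 - ε / 4) * T) := by
    have e3 : p * (r * (1 - ε / 4)) * ((1 - ε / 4) * T) = (p * (1 - ε / 4) ^ 2) * (r * T) := by
      ring
    have e4 : r * (2 - cMTinv - ε) * T + ε / 4 * r * T = (p - ε / 2) * (r * T) := by
      rw [hp]; ring
    rw [e3, e4]
    apply mul_le_mul_of_nonneg_right _ (mul_nonneg hr0.le (by linarith))
    have e5 : p * (1 - ε / 4) ^ 2 = p - p * ε / 2 + p * ε ^ 2 / 16 := by ring
    have h10 : 0 ≤ p * ε ^ 2 := mul_nonneg hp0 (sq_nonneg ε)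
    have h11 : p * ε ≤ 1 * ε := mul_le_mul_of_nonneg_right hp1 hε.le
    rw [e5]
    linarith
  linarith

end Pool.Agent.TH300.ZS
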