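import Pool.Agent.W201.Asym

/-!
# The measure of the neighbourhoods of the simple critical zeros
-/

open Complex Filter Topology Set MeasureTheory
open scoped BigOperators ComplexConjugate

namespace Pool.Agent.TH300.ZS

open H370 Pool.Agent.W201

/-- the chain lemma with the neighbourhoods only -/
theorem chainU {Λ ρ ν : ℝ} (hρ : 0 < ρ) (hν : 0 ≤ ν)
    (hk : ∀ x y : ℝ, x < y → ∃ t : ℝ, |t| ≤ 1 / 2 ∧
      1 - (4 * t * (phi Λ ((x : ℂ) - y)).re - 2 * t ^ 2) ≤ ν * min (y - x) (2 * ρ)) :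
    ∀ (n : ℕ) (S : Finset ℝ), S.card = n → ∀ hne : S.Nonempty,
      ∃ Y : ℝ → ℝ → ℝ, (∀ v : ℝ → ℂ, ∑ x ∈ S, ∑ y ∈ S, Y x y * (conj (v x) * v y).re ≤
          ∑ x ∈ S, ‖v x‖ ^ 2 - 1 / 2 * ‖v (S.min' hne)‖ ^ 2) ∧
        (S.card : ℝ) - YT Λ S Y ≤ 1 + ν * (volume (UU ρ S)).toReal := by
  classical
  intro n
  induction n using Nat.strong_induction_on with
  | _ n ih =>
    intro S hSn hne
    set x1 := S.min' hne with hx1
    have hx1S : x1 ∈ S := S.min'_mem hne
    set S1 := S.erase x1 with hS1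
    have hSins : insert x1 S1 = S := Finset.insert_erase hx1S
    have hx1S1 : x1 ∉ S1 := Finset.notMem_erase _ _
    rcases S1.eq_empty_or_nonempty with hS1e | hS1ne
    · have hS : S = {x1} := by rw [← hSins, hS1e]; rfl
      refine ⟨fun _ _ => 0, fun v => ?_, ?_⟩
      · simp only [zero_mul, Finset.sum_const_zero]
        have : ‖v x1‖ ^ 2 ≤ ∑ x ∈ S, ‖v x‖ ^ 2 :=
          Finset.single_le_sum (f := fun x => ‖v x‖ ^ 2) (fun x _ => by positivity) hx1S
        have h0 : 0 ≤ ‖v x1‖ ^ 2 := by positivity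
        linarith
      · have e1 : YT Λ S (fun _ _ => 0) = 0 := by unfold YT; simp
        have e3 : (S.card : ℝ) = 1 := by rw [hS]; simp
        rw [e1, e3]
        have : 0 ≤ ν * (volume (UU ρ S)).toReal := by positivity
        linarith
    · have hc1 : S1.card < n := by rw [← hSn]; exact Finset.card_erase_lt_of_mem hx1S
      obtain ⟨Y1, hY1, hY1c⟩ := ih _ hc1 S1 rfl hS1ne
      set x2 := S1.min' hS1ne with hx2
      have hx2S1 : x2 ∈ S1 := S1.min'_mem hS1ne
      have hx2S : x2 ∈ S := Finset.mem_of_mem_erase hx2S1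
      have h12 : x1 < x2 := lt_of_le_of_ne (S.min'_le x2 hx2S)
        (Ne.symm (Finset.ne_of_mem_erase hx2S1))
      have hm : ∀ x ∈ S1, x2 ≤ x := fun x hx => S1.min'_le x hx
      have hb : ∀ x ∈ S1, x ≤ S.max' hne := fun x hx =>
        S.le_max' x (Finset.mem_of_mem_erase hx)
      obtain ⟨t, ht, htc⟩ := hk x1 x2 h12
      obtain ⟨hv1, -⟩ := vol_step hρ h12 hx2S1 hm hb
      rw [hSins] at hv1
      refine ⟨ext x1 x2 S1 Y1 t, fun v => ?_, ?_⟩
      · have h1 := ext_sum x1 x2 S1 hx1S1 hx2S1 Y1 t (fun x y => (conj (v x) * v y).re)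
        rw [hSins] at h1
        rw [h1]
        have h2 := hY1 v
        have h3 : ∑ x ∈ S, ‖v x‖ ^ 2 = ‖v x1‖ ^ 2 + ∑ x ∈ S1, ‖v x‖ ^ 2 := by
          rw [← hSins, Finset.sum_insert hx1S1]
        rw [h3]
        have h4 : (conj (v x1) * v x2).re + (conj (v x2) * v x1).re =
            2 * (conj (v x1) * v x2).re := by
          simp only [Complex.mul_re, Complex.conj_re, Complex.conj_im]
          ring
        have h5 : |(conj (v x1) * v x2).re| ≤ ‖v x1‖ * ‖v x2‖ := by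
          refine (Complex.abs_re_le_norm _).trans ?_
          rw [norm_mul, Complex.norm_conj]
        have h6 : t * (2 * (conj (v x1) * v x2).re) ≤
            1 / 2 * (‖v x1‖ ^ 2 + ‖v x2‖ ^ 2) := by
          have a1 : t * (2 * (conj (v x1) * v x2).re) ≤ |t| * (2 * |(conj (v x1) * v x2).re|) := by
            have := le_abs_self (t * (2 * (conj (v x1) * v x2).re))
            rw [abs_mul, abs_mul, abs_two] at this
            exact this
          have a2 : |t| * (2 * |(conj (v x1) * v x2).re|) ≤ 1 / 2 * (2 * (‖v x1‖ * ‖v x2‖)) := by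
            apply mul_le_mul ht _ (by positivity) (by norm_num)
            linarith
          have a3 := two_mul_le_add_sq (‖v x1‖) (‖v x2‖)
          linarith
        rw [h4]
        linarith
      · have h1 := ext_YT Λ x1 x2 S1 hx1S1 hx2S1 Y1 t
        rw [hSins] at h1
        rw [h1]
        have h2 : (S.card : ℝ) = S1.card + 1 := by
          rw [← hSins, Finset.card_insert_of_notMem hx1S1]; push_cast; ring
        rw [h2]
        have h3 : ν * (min (x2 - x1) (2 * ρ) + (volume (UU ρ S1)).toReal) ≤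
            ν * (volume (UU ρ S)).toReal := mul_le_mul_of_nonneg_left hv1 hν
        nlinarith

/-- the neighbourhoods of the simple critical zeros -/
theorem nbhd {F : ℂ → ℂ} (hF : GoodL F) {U1 U2 : ℝ} (hU : 1 ≤ U1)
    {Λ ρ ν : ℝ} (hρ : 0 < ρ) (hν : 0 ≤ ν)
    (hk : ∀ x y : ℝ, x < y → ∃ t : ℝ, |t| ≤ 1 / 2 ∧
      1 - (4 * t * (phi Λ ((x : ℂ) - y)).re - 2 * t ^ 2) ≤ ν * min (y - x) (2 * ρ)) :
    2 * (NN F U1 U2 : ℝ) - QQ F Λ U1 U2 ≤ 1 + ν * (volume (UU ρ (SF F U1 U2))).toReal := by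
  classical
  set S := SF F U1 U2 with hS
  rcases S.eq_empty_or_nonempty with hSe | hne
  · have h1 := (trace_zeros hF hU (U2 := U2) Λ (fun _ _ => 0) (fun v => by
      simp only [zero_mul, Finset.sum_const_zero]
      exact Finset.sum_nonneg fun x _ => by positivity)).1
    rw [Ns_card hF hU, ← hS, hSe] at h1
    have e1 : YT Λ (∅ : Finset ℝ) (fun _ _ => 0) = 0 := by unfold YT; simp
    rw [e1] at h1
    simp only [Finset.card_empty, Nat.cast_zero, add_zero] at h1
    have : 0 ≤ ν * (volume (UU ρ S)).toReal := by positivity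
    linarith
  · obtain ⟨Y, hY, hYc⟩ := chainU hρ hν hk S.card S rfl hne
    have h1 := (trace_zeros hF hU (U2 := U2) Λ Y (fun v => (hY v).trans (by
      have : 0 ≤ ‖v (S.min' hne)‖ ^ 2 := by positivity
      linarith))).1
    rw [Ns_card hF hU, ← hS] at h1
    linarith

/-- the kernel for the neighbourhoods -/
theorem scaleU {σ θ Λ r : ℝ} (hσ0 : 0 < σ) (hr0 : 0 < r) (hθ0 : 0 < θ)
    (hrθ : r * θ ≤ 9 / 10) (hσr : r * σ ≤ 1 / 4) (hΛ : Λ * σ = 2 * Real.pi * θ) :
    ∀ x y : ℝ, x < y → ∃ t : ℝ, |t| ≤ 1 / 2 ∧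
      1 - (4 * t * (phi Λ ((x : ℂ) - y)).re - 2 * t ^ 2) ≤
        1 / (r * σ) * min (y - x) (2 * (r * σ / 2)) := by
  have hphi : ∀ x y : ℝ, (phi Λ ((x : ℂ) - y)).re =
      H344.KK (θ * ((y - x) / σ)) * Real.exp (-(y - x) ^ 2 / 8) := by
    intro x y
    rw [phi_sub_symm, phi_sub_re]
    unfold H344.KK
    congr 4
    have : Λ = 2 * Real.pi * θ / σ := by rw [← hΛ]; field_simp
    rw [this]
    field_simp
  have hE : ∀ z : ℝ, 0 ≤ 1 - Real.exp (-z ^ 2 / 8) ∧ 1 - Real.exp (-z ^ 2 / 8) ≤ z ^ 2 / 8 := by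
    intro z
    constructor
    · have : Real.exp (-z ^ 2 / 8) ≤ 1 := Real.exp_le_one_iff.mpr (by nlinarith [sq_nonneg z])
      linarith
    · have := Real.add_one_le_exp (-z ^ 2 / 8)
      linarith
  have hrσ : 0 < r * σ := mul_pos hr0 hσ0
  have e2 : 2 * (r * σ / 2) = r * σ := by ring
  intro x y hxy
  rw [e2]
  rcases le_or_gt (r * σ) (y - x) with h1 | h1
  · refine ⟨0, by norm_num, ?_⟩
    rw [min_eq_right h1, one_div_mul_cancel hrσ.ne']
    norm_num
  · rw [min_eq_left h1.le]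
    set g := (y - x) / σ with hg
    have hg0 : 0 < g := div_pos (by linarith) hσ0
    have hgx : y - x = g * σ := by rw [hg]; field_simp
    have hg1 : g < r := by rw [hg, div_lt_iff₀ hσ0]; exact h1
    obtain ⟨t, ht0, ht1, ht2⟩ := gap_small (u := θ * g) (by positivity)
    refine ⟨t, by rw [abs_of_nonneg ht0]; exact ht1, ?_⟩
    rw [hphi]
    have h2 := perturb (t := t) (E := Real.exp (-(y - x) ^ 2 / 8))
      (by rw [abs_of_nonneg ht0]; exact ht1) (KK_abs (θ * g)) (hE (y - x)).1 ht2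
    refine h2.trans ?_
    have h3 := (hE (y - x)).2
    have h4 : 1 / (r * σ) * (y - x) = g / r := by rw [hg]; field_simp
    rw [h4, le_div_iff₀ hr0]
    have h5 : (y - x) ^ 2 = (g * σ) * (g * σ) := by rw [hgx]; ring
    have h6 : g * σ ≤ 1 / 4 := le_trans (mul_le_mul_of_nonneg_right hg1.le hσ0.le) hσr
    have h7 : g * σ * (g * σ) * r ≤ (1 / 4) * (1 / 4) * g := by
      have : g * σ * (g * σ) * r = (g * σ) * (r * σ) * g := by ring
      rw [this]
      apply mul_le_mul_of_nonneg_right _ hg0.le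
      exact mul_le_mul h6 hσr hrσ.le (by norm_num)
    have h8 : 1.09 * (θ * g) * r ≤ 1.09 * (9 / 10) * g := by
      have : 1.09 * (θ * g) * r = 1.09 * (r * θ) * g := by ring
      rw [this]
      apply mul_le_mul_of_nonneg_right _ hg0.le
      apply mul_le_mul_of_nonneg_left hrθ (by norm_num)
    have h9 : 2 * (1 - Real.exp (-(y - x) ^ 2 / 8)) * r ≤ 2 * ((y - x) ^ 2 / 8) * r :=
      mul_le_mul_of_nonneg_right (mul_le_mul_of_nonneg_left h3 (by norm_num)) hr0.le
    have h10 : 2 * ((y - x) ^ 2 / 8) * r = (g * σ * (g * σ) * r) / 4 := by rw [h5]; ring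
    rw [h10] at h9
    rw [add_mul]
    norm_num at h8 ⊢
    linarith

end Pool.Agent.TH300.ZS
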