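import Mathlib

/-!
# Overlaps of translates of a set of reals
-/

open Set MeasureTheory
open scoped BigOperators

namespace Pool.Agent.TH300.ZS

lemma choose_convex (k n X : ℕ) :
    (n.choose (k + 1) : ℝ) + (n.choose k : ℝ) * ((X : ℝ) - n) ≤ (X.choose (k + 1) : ℝ) := by
  rcases le_total n X with h | h
  · induction X, h using Nat.le_induction with
    | base => simp
    | succ X hX ih =>
      have h1 : (X + 1).choose (k + 1) = X.choose k + X.choose (k + 1) := Nat.choose_succ_succ _ _
      have h2 : (n.choose k : ℝ) ≤ X.choose k := by exact_mod_cast Nat.choose_le_choose k hX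
      rw [h1]
      push_cast
      linarith
  · induction n, h using Nat.le_induction with
    | base => simp
    | succ n hn ih =>
      have h1 : (n + 1).choose (k + 1) = n.choose k + n.choose (k + 1) := Nat.choose_succ_succ _ _
      have h2 : (n.choose k : ℝ) ≤ (n + 1).choose k := by
        exact_mod_cast Nat.choose_le_choose k (Nat.le_succ n)
      have hn' : (X : ℝ) ≤ n := by exact_mod_cast hn
      rw [h1]
      push_cast
      nlinarith

lemma k_choose (k n : ℕ) : (n : ℝ) * n.choose k - n.choose (k + 1) =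
    k * (n + 1).choose (k + 1) := by
  have h1 : (n + 1).choose (k + 1) = n.choose k + n.choose (k + 1) := Nat.choose_succ_succ _ _
  have h2 : (n.choose (k + 1) : ℝ) * (k + 1) = n.choose k * (n - k) := by
    rcases le_or_gt k n with h | h
    · have := Nat.choose_succ_right_eq n k
      have h3 : (((n - k : ℕ) : ℝ)) = (n : ℝ) - k := by push_cast [h]; ring
      have h4 : ((n.choose (k + 1) * (k + 1) : ℕ) : ℝ) = ((n.choose k * (n - k) : ℕ) : ℝ) := by
        rw [this]
      push_cast at h4
      rw [h4, ← h3]
    · rw [Nat.choose_eq_zero_of_lt h, Nat.choose_eq_zero_of_lt (by omega : n < k + 1)]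
      simp
  rw [h1]
  push_cast
  linarith

/-- the translates of `U` by the numbers `a i` -/
def tr (U : Set ℝ) (s : ℝ) : Set ℝ := {t | t - s ∈ U}

lemma tr_meas {U : Set ℝ} (hU : MeasurableSet U) (s : ℝ) : MeasurableSet (tr U s) := by
  unfold tr
  exact hU.preimage (measurable_id.sub_const s)

lemma tr_vol (U : Set ℝ) (s : ℝ) : volume (tr U s) = volume U := by
  have : tr U s = (fun t => t - s) ⁻¹' U := rfl
  rw [this]
  simp_rw [sub_eq_add_neg]
  rw [measure_preimage_add_right]

lemma card_powerset_filter {ι : Type*} [Fintype ι] [DecidableEq ι] (k : ℕ) (P : ι → Prop)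
    [DecidablePred P] :
    ((Finset.powersetCard k (Finset.univ : Finset ι)).filter (fun I => ∀ i ∈ I, P i)).card =
      (Finset.univ.filter P).card.choose k := by
  rw [← Finset.card_powersetCard]
  congr 1
  ext I
  simp only [Finset.mem_filter, Finset.mem_powersetCard, Finset.subset_univ, true_and]
  constructor
  · rintro ⟨h1, h2⟩
    exact ⟨fun i hi => Finset.mem_filter.mpr ⟨Finset.mem_univ _, h2 i hi⟩, h1⟩
  · rintro ⟨h1, h2⟩
    exact ⟨h2, fun i hi => (Finset.mem_filter.mp (h1 hi)).2⟩

/-- The overlap inequality: `∑_{|I| = k+1} |⋂_{i ∈ I} (U + a_i)| ≥ C(n,k) m |U| - k C(n+1,k+1) |J|`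
if the `m` translates are contained in `J`. -/
theorem overlap {U J : Set ℝ} (hU : MeasurableSet U) (hJ : MeasurableSet J)
    (hJf : volume J ≠ ⊤) {m : ℕ} (a : Fin m → ℝ) (ha : ∀ i, tr U (a i) ⊆ J) (k n : ℕ) :
    (n.choose k : ℝ) * (m * (volume U).toReal) - k * (n + 1).choose (k + 1) * (volume J).toReal ≤
      ∑ I ∈ Finset.powersetCard (k + 1) (Finset.univ : Finset (Fin m)),
        (volume {t : ℝ | t ∈ J ∧ ∀ i ∈ I, t ∈ tr U (a i)}).toReal := by
  classical
  set D : Finset (Fin m) → Set ℝ := fun I => {t : ℝ | t ∈ J ∧ ∀ i ∈ I, t ∈ tr U (a i)} with hD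
  have hDm : ∀ I, MeasurableSet (D I) := by
    intro I
    have : D I = J ∩ ⋂ i ∈ I, tr U (a i) := by
      ext t
      simp [hD]
    rw [this]
    exact hJ.inter (Finset.measurableSet_biInter I fun i _ => tr_meas hU _)
  have hDJ : ∀ I, D I ⊆ J := fun I t ht => ht.1
  set g : ℝ → ℝ := fun t => ∑ I ∈ Finset.powersetCard (k + 1) (Finset.univ : Finset (Fin m)),
    (D I).indicator (fun _ => (1 : ℝ)) t with hg
  set f : ℝ → ℝ := fun t => ∑ i : Fin m, (tr U (a i)).indicator (fun _ => (1 : ℝ)) t with hf
  have hpt : ∀ t ∈ J, (n.choose (k + 1) : ℝ) + (n.choose k : ℝ) * (f t - n) ≤ g t := by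
    intro t ht
    set A := Finset.univ.filter (fun i : Fin m => t ∈ tr U (a i)) with hA
    have h1 : f t = A.card := by
      simp only [hf, Set.indicator_apply, hA]
      rw [Finset.sum_boole]
    have h2 : g t = (A.card.choose (k + 1) : ℝ) := by
      simp only [hg, Set.indicator_apply]
      rw [Finset.sum_boole]
      congr 1
      rw [hA, ← card_powerset_filter]
      congr 1
      ext I
      simp only [Finset.mem_filter, hD, Set.mem_ofPred_eq, ht, true_and]
    rw [h1, h2]
    exact choose_convex k n A.card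
  have hint1 : ∀ {E : Set ℝ}, MeasurableSet E → IntegrableOn (E.indicator (fun _ => (1 : ℝ))) J := by
    intro E hE
    refine Integrable.indicator ?_ hE
    exact integrableOn_const hJf
  have hintg : IntegrableOn g J := by
    simp only [hg]
    exact integrable_finsetSum _ fun I _ => hint1 (hDm I)
  have hintf : IntegrableOn f J := by
    simp only [hf]
    exact integrable_finsetSum _ fun i _ => hint1 (tr_meas hU _)
  have hI : ∀ {E : Set ℝ}, MeasurableSet E → E ⊆ J →
      ∫ t in J, E.indicator (fun _ => (1 : ℝ)) t = (volume E).toReal := by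
    intro E hE hEJ
    rw [integral_indicator hE, Measure.restrict_restrict hE, inter_eq_left.mpr hEJ]
    simp [Measure.real]
  have e1 : ∫ t in J, g t = ∑ I ∈ Finset.powersetCard (k + 1) (Finset.univ : Finset (Fin m)),
      (volume (D I)).toReal := by
    simp only [hg]
    rw [integral_finsetSum _ fun I _ => hint1 (hDm I)]
    exact Finset.sum_congr rfl fun I _ => hI (hDm I) (hDJ I)
  have e2 : ∫ t in J, f t = m * (volume U).toReal := by
    simp only [hf]
    rw [integral_finsetSum _ fun i _ => hint1 (tr_meas hU _)]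
    rw [Finset.sum_congr rfl fun i _ => hI (tr_meas hU (a i)) (ha i)]
    simp_rw [tr_vol]
    simp
  have e3 : ∫ t in J, ((n.choose (k + 1) : ℝ) + (n.choose k : ℝ) * (f t - n)) =
      (n.choose k : ℝ) * (m * (volume U).toReal) -
        k * (n + 1).choose (k + 1) * (volume J).toReal := by
    have h1 : ∀ t, (n.choose (k + 1) : ℝ) + (n.choose k : ℝ) * (f t - n) =
        (n.choose k : ℝ) * f t - k * (n + 1).choose (k + 1) := by
      intro t
      rw [← k_choose]
      ring
    simp_rw [h1]
    rw [integral_sub (hintf.const_mul _) (integrableOn_const hJf), integral_const_mul, e2]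
    simp [Measure.real]
    ring
  rw [← e3, ← e1]
  refine setIntegral_mono_on ?_ hintg hJ hpt
  have : IntegrableOn (fun t => (n.choose k : ℝ) * f t +
      ((n.choose (k + 1) : ℝ) - (n.choose k : ℝ) * n)) J :=
    (hintf.const_mul _).add (integrableOn_const hJf)
  refine this.congr_fun (fun t _ => ?_) hJ
  ring

end Pool.Agent.TH300.ZS
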